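import Pool.Agent.helper62.DP8.Spec

set_option autoImplicit false

namespace Pool.Agent.helper62.DP8

theorem TAB_mask (y : ℕ) : Nat.testBit 4294967295 y = decide (y < 32) := by
  have h : (4294967295 : ℕ) = 2 ^ 32 - 1 := by norm_num
  rw [h, Nat.testBit_two_pow_sub_one]

theorem TAB_shr (T k y : ℕ) : Nat.testBit (Nat.shiftRight T k) y = Nat.testBit T (k + y) := by
  have h : Nat.shiftRight T k = T >>> k := rfl
  rw [h, Nat.testBit_shiftRight]

theorem TAB_shl (T k i : ℕ) : Nat.testBit (Nat.shiftLeft T k) i = (decide (k ≤ i) && Nat.testBit T (i - k)) := by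
  have h : Nat.shiftLeft T k = T <<< k := rfl
  rw [h, Nat.testBit_shiftLeft]

theorem TAB_a (hBIT : BIT_stmt) (T x y : ℕ) : tb (ent T x) y = (decide (y < 32) && tb T (32 * x + y)) := by
  obtain ⟨h1, h2, h3, h4, h5, h6, h7⟩ := hBIT
  unfold ent
  rw [h3, h1, h1, h1, TAB_mask, TAB_shr]
  exact Bool.and_comm _ _

theorem TAB_tab (hBIT : BIT_stmt) (f : ℕ → ℕ) (n x y : ℕ) (hy : y < 32) :
    tb (tab f n) (32 * x + y) = (decide (x < n) && tb (f x) y) := by
  have hB := hBIT
  obtain ⟨h1, h2, h3, h4, h5, h6, h7⟩ := hB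
  induction n with
  | zero =>
    unfold tab
    rw [h6]
    simp
  | succ k ih =>
    unfold tab
    rw [h2, ih, h1, TAB_shl]
    by_cases hxk : x = k
    · subst hxk
      have e1 : 32 * x + y - 32 * x = y := by omega
      rw [e1, ← h1, h3, h1 4294967295, TAB_mask]
      have e2 : 32 * x ≤ 32 * x + y := by omega
      have e3 : x < x + 1 := by omega
      simp [e2, hy]
    · by_cases hlt : x < k
      · have e2 : ¬ (32 * k ≤ 32 * x + y) := by omega
        have e3 : x < k + 1 := by omega
        simp [e2, hlt, e3]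
      · have e4 : 32 ≤ 32 * x + y - 32 * k := by omega
        rw [← h1, h3, h1 4294967295, TAB_mask]
        have e5 : ¬ (32 * x + y - 32 * k < 32) := by omega
        have e3 : ¬ (x < k + 1) := by omega
        simp [e5, hlt, e3]

theorem TAB_c (hBIT : BIT_stmt) (f : ℕ → ℕ) (n x y : ℕ) :
    tb (ent (tab f n) x) y = true ↔ x < n ∧ y < 32 ∧ tb (f x) y = true := by
  rw [TAB_a hBIT]
  by_cases hy : y < 32
  · rw [TAB_tab hBIT f n x y hy]
    simp [hy]
  · simp [hy]

theorem TAB_b (hBIT : BIT_stmt) (f : ℕ → ℕ) (n x : ℕ) :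
    ent (tab f n) x = if x < n then f x % 4294967296 else 0 := by
  have hB := hBIT
  obtain ⟨h1, h2, h3, h4, h5, h6, h7⟩ := hB
  apply Nat.eq_of_testBit_eq
  intro y
  have e := TAB_c hBIT f n x y
  rw [h1, h1] at e
  have h232 : (4294967296 : ℕ) = 2 ^ 32 := by norm_num
  by_cases hx : x < n
  · rw [if_pos hx, h232, Nat.testBit_mod_two_pow]
    rw [Bool.eq_iff_iff, e]
    simp [hx]
  · rw [if_neg hx, Nat.zero_testBit]
    rw [Bool.eq_false_iff]
    intro h
    exact hx (e.mp h).1

theorem TAB_rows (hBIT : BIT_stmt) (E : List (ℕ × ℕ)) (hE : ∀ e ∈ E, e.1 < 32 ∧ e.2 < 32) (x y : ℕ) (hy : y < 32) :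
    tb (rows E) (32 * x + y) = true ↔ eL E x y := by
  have hB := hBIT
  obtain ⟨h1, h2, h3, h4, h5, h6, h7⟩ := hB
  induction E with
  | nil =>
    unfold rows
    rw [h6]
    simp [eL]
  | cons e l ih =>
    unfold rows
    rw [h2, h2, h5, h5]
    have he := hE e (by simp)
    have ih' := ih (fun e' he' => hE e' (by simp [he']))
    have k1 : (32 * x + y = 32 * e.1 + e.2) ↔ (x, y) = e := by
      constructor
      · intro h
        have a1 : x = e.1 := by omega
        have a2 : y = e.2 := by omega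
        rw [a1, a2]
      · intro h
        rw [← h]
    have k2 : (32 * x + y = 32 * e.2 + e.1) ↔ (y, x) = e := by
      constructor
      · intro h
        have a1 : x = e.2 := by omega
        have a2 : y = e.1 := by omega
        rw [a1, a2]
      · intro h
        rw [← h]
    simp only [Bool.or_eq_true, decide_eq_true_eq, ih', k1, k2]
    unfold eL
    simp only [List.mem_cons]
    tauto

theorem TAB (hBIT : BIT_stmt) : TAB_stmt := by
  refine ⟨TAB_a hBIT, TAB_b hBIT, TAB_c hBIT, ?_⟩
  intro E hE x y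
  rw [TAB_a hBIT]
  by_cases hy : y < 32
  · rw [← TAB_rows hBIT E hE x y hy]
    simp [hy]
  · constructor
    · intro h
      simp [hy] at h
    · intro h
      exfalso
      rcases h with h | h
      · exact hy (hE _ h).2
      · exact hy (hE _ h).1

end Pool.Agent.helper62.DP8
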